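import Pool.Agent.W406.PX.Stmts

set_option autoImplicit false

open Finset MeasureTheory

namespace Pool.Agent.W721.PX.Bdd

open Pool.Agent.H96R3.BC (vv cf NN)
open Pool.Agent.W406.PX

lemma vv_mono' {Q j₀ : ℕ} {p q : ℕ} (h : p ≤ q) : vv Q j₀ p ≤ vv Q j₀ q := by
  unfold vv
  apply Real.rpow_le_rpow (by positivity) _ (by positivity)
  apply div_le_div_of_nonneg_right _ (by positivity)
  exact_mod_cast h

lemma be_one_le {Q j' : ℕ} {B : ℕ → ℕ} {w : ℕ → ℝ → ℝ} {ε : ℝ} {ω : ℕ → ℝ}
    (hS : Sys Q j' B w ε ω) (i : ℕ) : 1 ≤ be Q j' B i := by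
  unfold be vv
  have hj : (0 : ℝ) < (j' : ℝ) ^ (2 * Q) := by
    have : (0 : ℝ) < j' := by
      have := hS.hj
      exact_mod_cast (by omega : 0 < j')
    positivity
  apply Real.one_le_rpow _ (by positivity)
  rw [le_div_iff₀ hj, one_mul]
  have h1 : j' ^ (2 * Q) ≤ B i := le_trans hS.low (hS.mono.monotone (Nat.zero_le i))
  exact_mod_cast h1

/-- closed form of the partial sums of `(1+t)^(-2)` -/
lemma closed (N : ℕ) (t : ℝ) : (1 + t) ^ 2 * ∑ l ∈ range N, (-1) ^ l * ((l : ℝ) + 1) * t ^ l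
    = 1 - (-1) ^ N * (((N : ℝ) + 1) * t ^ N + N * t ^ (N + 1)) := by
  induction N with
  | zero => simp
  | succ N ih =>
    rw [Finset.sum_range_succ, mul_add, ih]
    push_cast
    ring

lemma tay0 (N : ℕ) (t : ℝ) (ht : 0 ≤ t) :
    |1 / (1 + t) ^ 2 - ∑ l ∈ range N, (-1) ^ l * ((l : ℝ) + 1) * t ^ l| ≤ (N + 1) * t ^ N := by
  have h1 : 0 < (1 + t) ^ 2 := by positivity
  have h2 := closed N t
  have h3 : 1 / (1 + t) ^ 2 - ∑ l ∈ range N, (-1) ^ l * ((l : ℝ) + 1) * t ^ l
      = (-1) ^ N * ((((N : ℝ) + 1) * t ^ N + N * t ^ (N + 1)) / (1 + t) ^ 2) := by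
    rw [eq_comm, ← mul_div_assoc, div_eq_iff h1.ne', sub_mul, one_div, inv_mul_cancel₀ h1.ne']
    linarith
  rw [h3, abs_mul, abs_pow, abs_neg, abs_one, one_pow, one_mul, abs_of_nonneg (by positivity),
    div_le_iff₀ h1]
  have h4 : 0 ≤ t ^ N := by positivity
  have h5 : t ^ (N + 1) = t ^ N * t := pow_succ _ _
  rw [h5]
  have h6 : (0 : ℝ) ≤ N := Nat.cast_nonneg _
  have : ((N : ℝ) + 1) * t ^ N * (1 + t) ^ 2 - (((N : ℝ) + 1) * t ^ N + N * (t ^ N * t))
      = t ^ N * ((N + 2) * t + (N + 1) * t ^ 2) := by ring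
  have h7 : 0 ≤ t ^ N * ((N + 2) * t + (N + 1) * t ^ 2) := by positivity
  linarith

/-- the Taylor polynomial of `1/u^2` at `a` -/
noncomputable def TP (N : ℕ) (a : ℝ) : Polynomial ℝ :=
  ∑ l ∈ range N, Polynomial.C ((-1) ^ l * ((l : ℝ) + 1) / a ^ (l + 2)) *
    (Polynomial.X - Polynomial.C a) ^ l

lemma TP_deg (N : ℕ) (a : ℝ) (hN : 0 < N) : (TP N a).natDegree < N := by
  have : (TP N a).natDegree ≤ N - 1 := by
    unfold TP
    apply Polynomial.natDegree_sum_le_of_forall_le
    intro l hl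
    rw [Finset.mem_range] at hl
    refine (Polynomial.natDegree_C_mul_le _ _).trans ?_
    rw [Polynomial.natDegree_pow, Polynomial.natDegree_X_sub_C]
    omega
  omega

lemma TP_le (N : ℕ) (a u : ℝ) (ha : 1 ≤ a) (hu : a ≤ u) :
    |1 / u ^ 2 - (TP N a).eval u| ≤ (N + 1) * (u - a) ^ N := by
  have ha0 : 0 < a := by linarith
  have ht : 0 ≤ (u - a) / a := div_nonneg (by linarith) ha0.le
  have h := tay0 N ((u - a) / a) ht
  have e1 : 1 / u ^ 2 - (TP N a).eval u = (1 / a ^ 2) * (1 / (1 + (u - a) / a) ^ 2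
      - ∑ l ∈ range N, (-1) ^ l * ((l : ℝ) + 1) * ((u - a) / a) ^ l) := by
    have e2 : 1 + (u - a) / a = u / a := by field_simp; ring
    have hu0 : u ≠ 0 := by linarith
    rw [mul_sub, e2]
    congr 1
    · field_simp
    · unfold TP
      rw [Polynomial.eval_finsetSum, Finset.mul_sum]
      apply Finset.sum_congr rfl
      intro l _
      simp only [Polynomial.eval_mul, Polynomial.eval_C, Polynomial.eval_pow, Polynomial.eval_sub,
        Polynomial.eval_X, div_pow, pow_add]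
      field_simp
  rw [e1, abs_mul, abs_of_nonneg (by positivity)]
  have h1 : 1 / a ^ 2 ≤ 1 := by
    rw [div_le_one (by positivity)]
    exact one_le_pow₀ ha
  have h2 : ((u - a) / a) ^ N ≤ (u - a) ^ N :=
    pow_le_pow_left₀ ht (div_le_self (by linarith) ha) _
  calc 1 / a ^ 2 * _ ≤ 1 * ((N + 1) * ((u - a) / a) ^ N) :=
        mul_le_mul h1 h (abs_nonneg _) zero_le_one
    _ = (N + 1) * ((u - a) / a) ^ N := one_mul _
    _ ≤ (N + 1) * (u - a) ^ N := mul_le_mul_of_nonneg_left h2 (by positivity)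

/-- bound of the functional of a cell -/
lemma cZ_le {Q j' : ℕ} {B : ℕ → ℕ} {a : ℕ → ℝ} {f : ℝ → ℝ} {i : ℕ} {g : ℝ → ℝ} {G : ℝ}
    (hf : Continuous f) (hle : be Q j' B i ≤ be Q j' B (i + 1))
    (hg : ContinuousOn g (Set.Icc (be Q j' B i) (be Q j' B (i + 1))))
    (hG : ∀ u ∈ Set.Icc (be Q j' B i) (be Q j' B (i + 1)), |g u| ≤ G)
    (hv : ∀ n ∈ Ioc (B i) (B (i + 1)), vv Q j' n ∈ Set.Icc (be Q j' B i) (be Q j' B (i + 1))) :
    |cZ Q j' B a f i g| ≤ G * (∑ n ∈ Ioc (B i) (B (i + 1)), |a n| * (vv Q j' n) ^ 2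
      + |Zf Q j' B f i| + |Zf Q j' B f (i + 1)|
      + ∫ u in (be Q j' B i)..(be Q j' B (i + 1)), |f u|) := by
  unfold cZ
  have h1 : |∑ n ∈ Ioc (B i) (B (i + 1)), a n * (vv Q j' n) ^ 2 * g (vv Q j' n)|
      ≤ G * ∑ n ∈ Ioc (B i) (B (i + 1)), |a n| * (vv Q j' n) ^ 2 := by
    refine (Finset.abs_sum_le_sum_abs _ _).trans ?_
    rw [Finset.mul_sum]
    apply Finset.sum_le_sum
    intro n hn
    rw [abs_mul, abs_mul, abs_of_nonneg (sq_nonneg (vv Q j' n)), mul_comm]
    exact mul_le_mul_of_nonneg_right (hG _ (hv n hn)) (by positivity)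
  have h2 : |Zf Q j' B f i * g (be Q j' B i)| ≤ G * |Zf Q j' B f i| := by
    rw [abs_mul, mul_comm]
    exact mul_le_mul_of_nonneg_right (hG _ ⟨le_rfl, hle⟩) (abs_nonneg _)
  have h3 : |Zf Q j' B f (i + 1) * g (be Q j' B (i + 1))| ≤ G * |Zf Q j' B f (i + 1)| := by
    rw [abs_mul, mul_comm]
    exact mul_le_mul_of_nonneg_right (hG _ ⟨hle, le_rfl⟩) (abs_nonneg _)
  have h4 : |∫ u in (be Q j' B i)..(be Q j' B (i + 1)), f u * g u|
      ≤ G * ∫ u in (be Q j' B i)..(be Q j' B (i + 1)), |f u| := by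
    rw [← intervalIntegral.integral_const_mul]
    refine (intervalIntegral.abs_integral_le_integral_abs hle).trans ?_
    apply intervalIntegral.integral_mono_on hle
    · apply ContinuousOn.intervalIntegrable
      rw [Set.uIcc_of_le hle]
      exact (hf.continuousOn.mul hg).abs
    · exact (hf.abs.const_mul G).intervalIntegrable _ _
    · intro u hu
      rw [abs_mul, mul_comm]
      exact mul_le_mul_of_nonneg_right (hG _ hu) (abs_nonneg _)
  have t1 := abs_le.1 h1
  have t2 := abs_le.1 h2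
  have t3 := abs_le.1 h3
  have t4 := abs_le.1 h4
  rw [abs_le]
  constructor
  · linarith [t1.1, t2.2, t3.1, t4.2]
  · linarith [t1.2, t2.1, t3.2, t4.1]

lemma cZ_sub {Q j' : ℕ} {B : ℕ → ℕ} {a : ℕ → ℝ} {f : ℝ → ℝ} {i : ℕ} {g h : ℝ → ℝ}
    (hf : Continuous f) (hle : be Q j' B i ≤ be Q j' B (i + 1))
    (hg : ContinuousOn g (Set.Icc (be Q j' B i) (be Q j' B (i + 1))))
    (hh : Continuous h) :
    cZ Q j' B a f i (fun u => g u - h u) = cZ Q j' B a f i g - cZ Q j' B a f i h := by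
  unfold cZ
  have e1 : ∀ n, a n * (vv Q j' n) ^ 2 * (g (vv Q j' n) - h (vv Q j' n))
      = a n * (vv Q j' n) ^ 2 * g (vv Q j' n) - a n * (vv Q j' n) ^ 2 * h (vv Q j' n) :=
    fun n => by ring
  have e2 : ∀ u, f u * (g u - h u) = f u * g u - f u * h u := fun u => by ring
  simp only [e1, e2]
  rw [Finset.sum_sub_distrib, intervalIntegral.integral_sub]
  · ring
  · apply ContinuousOn.intervalIntegrable
    rw [Set.uIcc_of_le hle]
    exact hf.continuousOn.mul hg
  · exact (hf.mul hh).intervalIntegrable _ _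

theorem task : TaskBdd := by
  intro hMom hMss Q j' m B w ε ω hS s x f hSrc hcell hO
  set y : ℕ → ℝ := fun n => s n + x n with hy
  have hBdd : Bdd Q j' B 1 (cN y) f := by
    refine ⟨zero_le_one, hO.fcont, ?_, ?_⟩
    · intro i
      rw [one_mul]
      exact hO.mass i
    · intro v hv
      rw [one_mul]
      exact hO.fbd v hv
  have hb1 := fun i => be_one_le hS i
  have hble : ∀ i, be Q j' B i ≤ be Q j' B (i + 1) := fun i =>
    vv_mono' (hS.mono.monotone (Nat.le_succ i))
  have hvm : ∀ i, ∀ n ∈ Ioc (B i) (B (i + 1)),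
      vv Q j' n ∈ Set.Icc (be Q j' B i) (be Q j' B (i + 1)) := by
    intro i n hn
    rw [Finset.mem_Ioc] at hn
    exact ⟨vv_mono' hn.1.le, vv_mono' hn.2⟩
  have hE : ∀ i, |∑ n ∈ Ioc (B i) (B (i + 1)), cf y n| ≤ (4 * Q + 5) * qA Q j' B i := by
    intro i
    have hcf : ∀ n ∈ Ioc (B i) (B (i + 1)), cf y n = co Q j' B w (cN y) f i n + s n := by
      intro n hn
      unfold co cN
      by_cases hp : n.Prime
      · rw [if_pos hp, if_pos hp, zero_add]
        have h1 := hO.xeq i n hn hp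
        have h2 : cf y n = y n := by
          unfold cf
          rw [if_pos hp.squarefree, hp.primeFactors, Finset.prod_singleton]
        rw [h2, hy]
        show s n + x n = XL Q j' B w (cN y) f i n + s n
        rw [← h1]
        ring
      · rw [if_neg hp, if_neg hp, add_zero]
        have : s n = 0 := by
          by_contra h
          exact hp (hSrc.supp n h).1
        rw [this, add_zero]
    have hsum : ∑ n ∈ Ioc (B i) (B (i + 1)), cf y n
        = ∑ n ∈ Ioc (B i) (B (i + 1)), co Q j' B w (cN y) f i n := by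
      rw [Finset.sum_congr rfl hcf, Finset.sum_add_distrib, hcell i, add_zero]
    have hg : ContinuousOn (fun u : ℝ => 1 / u ^ 2) (Set.Icc (be Q j' B i) (be Q j' B (i + 1))) := by
      apply ContinuousOn.div continuousOn_const (by fun_prop)
      intro u hu
      have : 1 ≤ u := (hb1 i).trans hu.1
      positivity
    have hcZ : cZ Q j' B (co Q j' B w (cN y) f i) f i (fun u => 1 / u ^ 2)
        = ∑ n ∈ Ioc (B i) (B (i + 1)), cf y n := by
      rw [hsum]
      unfold cZ
      have e1 : ∑ n ∈ Ioc (B i) (B (i + 1)), co Q j' B w (cN y) f i n * (vv Q j' n) ^ 2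
          * (1 / (vv Q j' n) ^ 2) = ∑ n ∈ Ioc (B i) (B (i + 1)), co Q j' B w (cN y) f i n := by
        apply Finset.sum_congr rfl
        intro n hn
        have : 1 ≤ vv Q j' n := (hb1 i).trans (hvm i n hn).1
        have h0 : vv Q j' n ≠ 0 := by linarith
        field_simp
      have e2 : ∀ k, Zf Q j' B f k * (1 / be Q j' B k ^ 2)
          = ∫ u in (be Q j' B 0)..(be Q j' B k), f u / u ^ 2 := by
        intro k
        unfold Zf
        have h0 : be Q j' B k ≠ 0 := by have := hb1 k; linarith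
        field_simp
      have hint : ∀ k, IntervalIntegrable (fun u => f u / u ^ 2) volume (be Q j' B 0) (be Q j' B k) := by
        intro k
        apply ContinuousOn.intervalIntegrable
        apply ContinuousOn.div hO.fcont.continuousOn (by fun_prop)
        intro u hu
        have h1 : 1 ≤ u := by
          have h2 := hu.1
          have : 1 ≤ min (be Q j' B 0) (be Q j' B k) := le_min (hb1 0) (hb1 k)
          exact this.trans h2
        positivity
      have e3 : ∫ u in (be Q j' B i)..(be Q j' B (i + 1)), f u * (1 / u ^ 2)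
          = (∫ u in (be Q j' B 0)..(be Q j' B (i + 1)), f u / u ^ 2)
            - ∫ u in (be Q j' B 0)..(be Q j' B i), f u / u ^ 2 := by
        rw [intervalIntegral.integral_interval_sub_left (hint (i + 1)) (hint i)]
        refine intervalIntegral.integral_congr fun u _ => ?_
        simp only [mul_one_div]
      rw [e1, e2, e2, e3]
      ring
    have hP := hMom Q j' B w ε ω hS (cN y) f hO.fcont i (TP (4 * Q + 4) (be Q j' B i))
      (TP_deg _ _ (by omega))
    have hPc : Continuous (fun u : ℝ => (TP (4 * Q + 4) (be Q j' B i)).eval u) :=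
      (TP (4 * Q + 4) (be Q j' B i)).continuous
    have hsub := cZ_sub (a := co Q j' B w (cN y) f i) hO.fcont (hble i) hg hPc
    rw [hP, sub_zero, hcZ] at hsub
    rw [← hsub]
    have hbound := cZ_le (a := co Q j' B w (cN y) f i) (g := fun u => 1 / u ^ 2
      - (TP (4 * Q + 4) (be Q j' B i)).eval u)
      (G := (4 * Q + 5) * (be Q j' B (i + 1) - be Q j' B i) ^ (4 * Q + 4)) hO.fcont (hble i)
      (hg.sub hPc.continuousOn) (by
        intro u hu
        have h1 := TP_le (4 * Q + 4) (be Q j' B i) u (hb1 i) hu.1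
        refine h1.trans ?_
        push_cast
        have h2 : (u - be Q j' B i) ^ (4 * Q + 4) ≤ (be Q j' B (i + 1) - be Q j' B i) ^ (4 * Q + 4) :=
          pow_le_pow_left₀ (by linarith [hu.1]) (by linarith [hu.2]) _
        have h3 : (0 : ℝ) ≤ 4 * Q + 5 := by positivity
        calc (4 * (Q : ℝ) + 4 + 1) * (u - be Q j' B i) ^ (4 * Q + 4)
            = (4 * Q + 5) * (u - be Q j' B i) ^ (4 * Q + 4) := by ring
          _ ≤ _ := mul_le_mul_of_nonneg_left h2 h3) (hvm i)
    refine hbound.trans ?_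
    have hM := (hMss Q j' B w ε ω hS 1 (cN y) f hBdd i).2.2
    rw [one_mul] at hM
    have h4 : (0 : ℝ) ≤ (4 * Q + 5) * (be Q j' B (i + 1) - be Q j' B i) ^ (4 * Q + 4) := by
      have := hble i
      have : 0 ≤ be Q j' B (i + 1) - be Q j' B i := by linarith
      positivity
    refine (mul_le_mul_of_nonneg_left hM h4).trans (le_of_eq ?_)
    unfold qA
    ring
  have hqA0 : ∀ i, 0 ≤ qA Q j' B i := by
    intro i
    have h1 := (abs_nonneg _).trans (hE i)
    have h2 : (0 : ℝ) < 4 * Q + 5 := by positivity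
    exact nonneg_of_mul_nonneg_right h1 h2
  refine ⟨|∑ n ∈ Icc 1 (B 0), cf y n| + (4 * Q + 5) * ∑' i, qA Q j' B i, ?_⟩
  intro i
  have hsplit : ∀ i, ∑ n ∈ Icc 1 (B i), cf y n
      = ∑ n ∈ Icc 1 (B 0), cf y n + ∑ l ∈ range i, ∑ n ∈ Ioc (B l) (B (l + 1)), cf y n := by
    intro i
    induction i with
    | zero => simp
    | succ i ih =>
      rw [Finset.sum_range_succ, ← add_assoc, ← ih]
      have h1 : Icc 1 (B (i + 1)) = Icc 1 (B i) ∪ Ioc (B i) (B (i + 1)) := by
        ext n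
        have : B i < B (i + 1) := hS.mono (Nat.lt_succ_self i)
        simp only [Finset.mem_union, Finset.mem_Icc, Finset.mem_Ioc]
        omega
      have h2 : Disjoint (Icc 1 (B i)) (Ioc (B i) (B (i + 1))) := by
        rw [Finset.disjoint_left]
        intro n hn hn'
        rw [Finset.mem_Icc] at hn
        rw [Finset.mem_Ioc] at hn'
        omega
      rw [h1, Finset.sum_union h2]
  rw [hsplit i]
  refine (abs_add_le _ _).trans ?_
  apply add_le_add le_rfl
  refine (Finset.abs_sum_le_sum_abs _ _).trans ?_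
  calc ∑ l ∈ range i, |∑ n ∈ Ioc (B l) (B (l + 1)), cf y n|
      ≤ ∑ l ∈ range i, (4 * Q + 5) * qA Q j' B l := Finset.sum_le_sum fun l _ => hE l
    _ = (4 * Q + 5) * ∑ l ∈ range i, qA Q j' B l := by rw [Finset.mul_sum]
    _ ≤ (4 * Q + 5) * ∑' i, qA Q j' B i :=
        mul_le_mul_of_nonneg_left (hS.sumA.1.sum_le_tsum _ fun l _ => hqA0 l) (by positivity)

end Pool.Agent.W721.PX.Bdd
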