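import Pool.Agent.W406.PX.Stmts
import Pool.Agent.H336R4.BC.FixB1
import Pool.Agent.H553R3.BCKer2

set_option autoImplicit false

open Finset MeasureTheory

namespace Pool.Agent.W721.PX.Fst

open Pool.Agent.H96R3.BC (vv cf NN TaskKer1 TaskKer2)
open Pool.Agent.H336R4.BC
open Pool.Agent.H394R3.BC (Ker)
open Pool.Agent.W406.PX

lemma vv_mono' {Q j₀ : ℕ} {p q : ℕ} (h : p ≤ q) : vv Q j₀ p ≤ vv Q j₀ q := by
  unfold vv
  apply Real.rpow_le_rpow (by positivity) _ (by positivity)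
  apply div_le_div_of_nonneg_right _ (by positivity)
  exact_mod_cast h

lemma be_one_le {Q j' : ℕ} {B : ℕ → ℕ} {w : ℕ → ℝ → ℝ} {ε : ℝ} {ω : ℕ → ℝ}
    (hS : Sys Q j' B w ε ω) (i : ℕ) : 1 ≤ be Q j' B i := by
  unfold be vv
  have hj : (0 : ℝ) < (j' : ℝ) ^ (2 * Q) := by
    have : (0 : ℝ) < j' := by
      have := hS.hj
      exact_mod_cast (by omega : 0 < j')
    positivity
  apply Real.one_le_rpow _ (by positivity)
  rw [le_div_iff₀ hj, one_mul]
  have h1 : j' ^ (2 * Q) ≤ B i := le_trans hS.low (hS.mono.monotone (Nat.zero_le i))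
  exact_mod_cast h1

lemma Ker_ph (Q : ℕ) (u v : ℝ) : Ker (4 * Q + 3) u v = v ^ (4 * Q + 3) * ph Q (u * v) := rfl

/-- the contribution of `[0,1]` -/
lemma low_le' (h2 : TaskKer2) {Q : ℕ} (hQ : 8 ≤ Q) {f : ℝ → ℝ} {κ D : ℝ} (hκ : 0 ≤ κ) (hD : 0 ≤ D)
    (hf : ∀ v : ℝ, 0 ≤ v → |f v| ≤ D * (κ * NN Q v)) {v : ℝ} (hv : 0 ≤ v) :
    |∫ u in (0:ℝ)..1, f u * ph Q (u * v)| * WW Q v ≤ D * κ / 9 := by
  have hWp := WW_pos Q v
  have hpt : ∀ u : ℝ, u ∈ Set.Icc (0:ℝ) 1 → |f u * ph Q (u * v)| ≤ 3 * D * κ / WW Q v * u ^ (3 * Q + 2) := by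
    intro u hu
    have hu0 : 0 ≤ u := hu.1
    have h3 : |f u| ≤ D * (κ * u ^ (4 * Q + 3)) := by
      have := hf u hu0
      unfold NN at this
      rwa [if_pos hu.2] at this
    have h4 : u ^ (Q + 1) * (|ph Q (u * v)| * WW Q v) ≤ 3 := by
      rcases le_total v 1 with h | h
      · rw [WW_of_le h, mul_one]
        calc u ^ (Q + 1) * |ph Q (u * v)| ≤ 1 * 3 :=
              mul_le_mul (pow_le_one₀ hu0 hu.2) (ph_le h2 Q (by positivity)) (abs_nonneg _) zero_le_one
          _ = 3 := one_mul _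
      · rw [WW_of_ge h]
        have := ph_decay h2 Q (by omega) (show 0 ≤ u * v by positivity)
        calc u ^ (Q + 1) * (|ph Q (u * v)| * v ^ (Q + 1)) = |ph Q (u * v)| * (u * v) ^ (Q + 1) := by
              rw [mul_pow]; ring
          _ ≤ 3 := this
    rw [abs_mul]
    have e : (u:ℝ) ^ (4 * Q + 3) = u ^ (3 * Q + 2) * u ^ (Q + 1) := by rw [← pow_add]; congr 1; ring
    calc |f u| * |ph Q (u * v)| ≤ D * (κ * u ^ (4 * Q + 3)) * |ph Q (u * v)| :=
          mul_le_mul_of_nonneg_right h3 (abs_nonneg _)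
      _ = D * κ * u ^ (3 * Q + 2) / WW Q v * (u ^ (Q + 1) * (|ph Q (u * v)| * WW Q v)) := by
          rw [e]; field_simp
      _ ≤ D * κ * u ^ (3 * Q + 2) / WW Q v * 3 := mul_le_mul_of_nonneg_left h4 (by positivity)
      _ = _ := by ring
  have hint : |∫ u in (0:ℝ)..1, f u * ph Q (u * v)| ≤ ∫ u in (0:ℝ)..1, 3 * D * κ / WW Q v * u ^ (3 * Q + 2) := by
    rw [← Real.norm_eq_abs]
    apply intervalIntegral.norm_integral_le_of_norm_le zero_le_one
    · refine Filter.Eventually.of_forall fun u hu => ?_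
      exact hpt u ⟨hu.1.le, hu.2⟩
    · exact (continuous_const.mul (continuous_pow _)).intervalIntegrable _ _
  rw [intervalIntegral.integral_const_mul, integral_pow] at hint
  have h5 : |∫ u in (0:ℝ)..1, f u * ph Q (u * v)| * WW Q v ≤
      (3 * D * κ / WW Q v * ((1 ^ (3 * Q + 2 + 1) - 0 ^ (3 * Q + 2 + 1)) / ((3 * Q + 2 : ℕ) + 1))) * WW Q v :=
    mul_le_mul_of_nonneg_right hint hWp.le
  refine h5.trans ?_
  rw [one_pow, zero_pow (by omega), sub_zero]
  have h6 : (3 * D * κ / WW Q v * (1 / (((3 * Q + 2 : ℕ) : ℝ) + 1))) * WW Q v = D * κ * (3 / (3 * Q + 3)) := by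
    push_cast
    field_simp
    ring
  rw [h6]
  have hQR : (8:ℝ) ≤ Q := by exact_mod_cast hQ
  have h7 : (3:ℝ) / (3 * Q + 3) ≤ 1 / 9 := by
    rw [div_le_div_iff₀ (by positivity) (by norm_num)]
    linarith
  calc D * κ * (3 / (3 * Q + 3)) ≤ D * κ * (1 / 9) := mul_le_mul_of_nonneg_left h7 (by positivity)
    _ = D * κ / 9 := by ring

/-- the contribution of `[1,b]` -/
lemma high_le' (h2 : TaskKer2) {Q : ℕ} (hQ : 8 ≤ Q) {f : ℝ → ℝ} {κ D b : ℝ} (hκ : 0 ≤ κ) (hD : 0 ≤ D)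
    (hb : 1 ≤ b) (hb2 : b ^ (3 * Q + 2) * (b - 1) ≤ 1 / 300)
    (hf : ∀ v : ℝ, 0 ≤ v → |f v| ≤ D * (κ * NN Q v)) {v : ℝ} (hv : 0 ≤ v) :
    |∫ u in (1:ℝ)..b, f u * ph Q (u * v)| * WW Q v ≤ D * κ / 100 := by
  have hWp := WW_pos Q v
  have hpt : ∀ u ∈ Set.uIoc (1:ℝ) b, ‖f u * ph Q (u * v)‖ ≤ 3 * D * κ / WW Q v * b ^ (3 * Q + 2) := by
    intro u hu
    rw [Set.uIoc_of_le hb] at hu
    have hu1 : 1 ≤ u := hu.1.le
    have hu0 : 0 ≤ u := by linarith
    have h3 : |f u| ≤ D * (κ * b ^ (3 * Q + 2)) := by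
      have := hf u hu0
      rw [NN_of_ge hu1] at this
      refine this.trans ?_
      apply mul_le_mul_of_nonneg_left _ hD
      exact mul_le_mul_of_nonneg_left (pow_le_pow_left₀ hu0 hu.2 _) hκ
    have h4 : |ph Q (u * v)| * WW Q v ≤ 3 := by
      rcases le_total v 1 with h | h
      · rw [WW_of_le h, mul_one]
        exact ph_le h2 Q (by positivity)
      · rw [WW_of_ge h]
        have := ph_decay h2 Q (by omega) (show 0 ≤ u * v by positivity)
        refine le_trans ?_ this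
        apply mul_le_mul_of_nonneg_left _ (abs_nonneg _)
        apply pow_le_pow_left₀ hv
        nlinarith
    rw [Real.norm_eq_abs, abs_mul]
    calc |f u| * |ph Q (u * v)| ≤ D * (κ * b ^ (3 * Q + 2)) * |ph Q (u * v)| :=
          mul_le_mul_of_nonneg_right h3 (abs_nonneg _)
      _ = D * κ * b ^ (3 * Q + 2) / WW Q v * (|ph Q (u * v)| * WW Q v) := by field_simp
      _ ≤ D * κ * b ^ (3 * Q + 2) / WW Q v * 3 :=
          mul_le_mul_of_nonneg_left h4 (by have : 0 ≤ b := by linarith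
                                           positivity)
      _ = _ := by ring
  have h5 := intervalIntegral.norm_integral_le_of_norm_le_const hpt
  rw [Real.norm_eq_abs, abs_of_nonneg (by linarith : 0 ≤ b - 1)] at h5
  calc |∫ u in (1:ℝ)..b, f u * ph Q (u * v)| * WW Q v
      ≤ (3 * D * κ / WW Q v * b ^ (3 * Q + 2) * (b - 1)) * WW Q v :=
        mul_le_mul_of_nonneg_right h5 hWp.le
    _ = 3 * D * κ * (b ^ (3 * Q + 2) * (b - 1)) := by field_simp
    _ ≤ 3 * D * κ * (1 / 300) := mul_le_mul_of_nonneg_left hb2 (by positivity)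
    _ = D * κ / 100 := by ring

theorem task : TaskFst := by
  intro Q j' B w ε ω hS D f hD hfc hf
  have h1 : TaskKer1 := Pool.Agent.H553R3.BC.taskKer1
  have h2 : TaskKer2 := Pool.Agent.H553R3.BC.taskKer2
  have hb := be_one_le hS 0
  have hκ : 0 ≤ kp Q j' := by unfold kp; positivity
  constructor
  · intro v hv
    have hcont : Continuous (fun u => f u * ph Q (u * v)) :=
      hfc.mul ((ph_cont h1 Q).comp (continuous_id.mul continuous_const))
    have e1 : ∫ u in (0:ℝ)..(be Q j' B 0), f u * Ker (4 * Q + 3) u v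
        = v ^ (4 * Q + 3) * ∫ u in (0:ℝ)..(be Q j' B 0), f u * ph Q (u * v) := by
      rw [← intervalIntegral.integral_const_mul]
      refine intervalIntegral.integral_congr fun u _ => ?_
      simp only [Ker_ph]
      ring
    have e2 : ∫ u in (0:ℝ)..(be Q j' B 0), f u * ph Q (u * v)
        = (∫ u in (0:ℝ)..1, f u * ph Q (u * v)) + ∫ u in (1:ℝ)..(be Q j' B 0), f u * ph Q (u * v) :=
      (intervalIntegral.integral_add_adjacent_intervals (hcont.intervalIntegrable _ _)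
        (hcont.intervalIntegrable _ _)).symm
    have hl := low_le' h2 hS.hQ hκ hD hf hv
    have hh := high_le' h2 hS.hQ hκ hD hb hS.first.2 hf hv
    have hWp := WW_pos Q v
    rw [e1, e2, abs_mul, abs_of_nonneg (by positivity : (0:ℝ) ≤ v ^ (4 * Q + 3)), NN_eq Q hv]
    have h3 : |(∫ u in (0:ℝ)..1, f u * ph Q (u * v)) + ∫ u in (1:ℝ)..(be Q j' B 0), f u * ph Q (u * v)|
        * WW Q v ≤ D * kp Q j' / 4 := by
      calc _ ≤ (|∫ u in (0:ℝ)..1, f u * ph Q (u * v)|
            + |∫ u in (1:ℝ)..(be Q j' B 0), f u * ph Q (u * v)|) * WW Q v :=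
            mul_le_mul_of_nonneg_right (abs_add_le _ _) hWp.le
        _ ≤ D * kp Q j' / 9 + D * kp Q j' / 100 := by rw [add_mul]; exact add_le_add hl hh
        _ ≤ D * kp Q j' / 4 := by
            have : 0 ≤ D * kp Q j' := mul_nonneg hD hκ
            linarith
    have key : ∀ T : ℝ, T * WW Q v ≤ D * kp Q j' / 4 →
        v ^ (4 * Q + 3) * T ≤ D * (kp Q j' / 4 * (v ^ (4 * Q + 3) / WW Q v)) := by
      intro T hT
      calc v ^ (4 * Q + 3) * T = (T * WW Q v) * (v ^ (4 * Q + 3) / WW Q v) := by field_simp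
        _ ≤ (D * kp Q j' / 4) * (v ^ (4 * Q + 3) / WW Q v) :=
            mul_le_mul_of_nonneg_right hT (by positivity)
        _ = D * (kp Q j' / 4 * (v ^ (4 * Q + 3) / WW Q v)) := by ring
    exact key _ h3
  · apply intervalIntegral.continuous_parametric_intervalIntegral_of_continuous'
    have hk := Pool.Agent.H394R3.BC.Ker_cont (4 * Q + 3)
    exact (hfc.comp continuous_snd).mul (hk.comp (continuous_snd.prodMk continuous_fst))

end Pool.Agent.W721.PX.Fst
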